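import Mathlib

/-!
# MP_54b381_gt : every linearly ordered coarse space embeds in one with an interval base
-/

namespace Pool.Agent.Results.MP_54b381_gt.IntervalExtension

open Set

universe u

/-- Coarse structures. -/
structure IsCoarse {X : Type u} (𝓔 : Set (Set (X × X))) : Prop where
  diag : ∀ E ∈ 𝓔, ∀ x, (x, x) ∈ E
  comp : ∀ E ∈ 𝓔, ∀ F ∈ 𝓔, {p : X × X | ∃ y, (p.1, y) ∈ E ∧ (y, p.2) ∈ F} ∈ 𝓔
  inv : ∀ E ∈ 𝓔, {p : X × X | (p.2, p.1) ∈ E} ∈ 𝓔
  sub : ∀ E ∈ 𝓔, ∀ E', (∀ x, (x, x) ∈ E') → E' ⊆ E → E' ∈ 𝓔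

/-- The ball `E[x]`. -/
def ball {X : Type u} (E : Set (X × X)) (x : X) : Set X := {y | (x, y) ∈ E}

/-- Connectedness. -/
def Connected {X : Type u} (𝓔 : Set (Set (X × X))) : Prop := ∀ x y, ∃ E ∈ 𝓔, y ∈ ball E x

/-- The linear order is compatible with the coarse structure. -/
def Compatible {X : Type u} [LinearOrder X] (𝓔 : Set (Set (X × X))) : Prop :=
  ∀ E ∈ 𝓔, ∃ F ∈ 𝓔, ∀ x y, x < y → y ∉ ball F x → ∀ x' ∈ ball E x, x' < y

/-- Linearly ordered coarse spaces. -/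
structure IsLOCoarse (X : Type u) [LinearOrder X] (𝓔 : Set (Set (X × X))) : Prop where
  coarse : IsCoarse 𝓔
  connected : Connected 𝓔
  compatible : Compatible 𝓔

/-- `𝓔` has a base all of whose balls are (closed, nonempty) intervals. -/
def HasIntervalBase {X : Type u} [LinearOrder X] (𝓔 : Set (Set (X × X))) : Prop :=
  ∃ 𝓑 ⊆ 𝓔, (∀ E ∈ 𝓔, ∃ E' ∈ 𝓑, E ⊆ E') ∧ ∀ E ∈ 𝓑, ∀ x, ∃ a b, a ≤ b ∧ ball E x = Icc a b

/-- The subspace structure on `Y ⊆ X`. -/
def subspace {X : Type u} (𝓔 : Set (Set (X × X))) (Y : Set X) : Set (Set (Y × Y)) :=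
  {F | ∃ E ∈ 𝓔, F = {p : Y × Y | ((p.1 : X), (p.2 : X)) ∈ E}}

/-- Macro-uniform maps. -/
def MacroUniform {X Y : Type u} (𝓔 : Set (Set (X × X))) (𝓕 : Set (Set (Y × Y))) (f : X → Y) :
    Prop := ∀ E ∈ 𝓔, ∃ F ∈ 𝓕, ∀ x, f '' ball E x ⊆ ball F (f x)

/-- Asymorphisms. -/
def Asymorphic {X Y : Type u} (𝓔 : Set (Set (X × X))) (𝓕 : Set (Set (Y × Y))) : Prop :=
  ∃ f : X ≃ Y, MacroUniform 𝓔 𝓕 f ∧ MacroUniform 𝓕 𝓔 f.symm

section conv

variable {X : Type u} [LinearOrder X] {𝓔 : Set (Set (X × X))}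

/-- Every entourage lies in an entourage with convex balls. -/
theorem exists_convex (h : IsLOCoarse X 𝓔) {E : Set (X × X)} (hE : E ∈ 𝓔) :
    ∃ H ∈ 𝓔, E ⊆ H ∧ ∀ x y₁ y₂ y, (x, y₁) ∈ H → (x, y₂) ∈ H → y₁ ≤ y → y ≤ y₂ → (x, y) ∈ H := by
  obtain ⟨F, hF, hEF⟩ := h.compatible E hE
  have hEi := h.coarse.inv E hE
  obtain ⟨F', hF', hEF'⟩ := h.compatible _ hEi
  let H : Set (X × X) := {p | ∃ x', (p.1, x') ∈ E ∧ ((p.1 ≤ p.2 ∧ p.2 ≤ x') ∨ (x' ≤ p.2 ∧ p.2 ≤ p.1))}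
  have hdiag : ∀ x, (x, x) ∈ H := fun x => ⟨x, h.coarse.diag E hE x, Or.inl ⟨le_rfl, le_rfl⟩⟩
  have hG := h.coarse.comp F hF _ (h.coarse.comp E hE F' hF')
  have hHsub : H ⊆ {p : X × X | ∃ y, (p.1, y) ∈ F ∧ (y, p.2) ∈
      {p : X × X | ∃ y, (p.1, y) ∈ E ∧ (y, p.2) ∈ F'}} := by
    rintro ⟨x, y⟩ ⟨x', hx', h1 | h1⟩
    · obtain ⟨h1, h2⟩ := h1
      refine ⟨y, ?_, y, h.coarse.diag E hE y, h.coarse.diag F' hF' y⟩
      rcases h1.eq_or_lt with heq | hlt
      · change x = y at heq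
        subst heq
        exact h.coarse.diag F hF x
      · by_contra hcon
        exact absurd (hEF x y hlt hcon x' hx') (not_lt.2 h2)
    · obtain ⟨h1, h2⟩ := h1
      refine ⟨x, h.coarse.diag F hF x, x', hx', ?_⟩
      rcases h1.eq_or_lt with heq | hlt
      · change x' = y at heq
        subst heq
        exact h.coarse.diag F' hF' x'
      · by_contra hcon
        exact absurd (hEF' x' y hlt hcon x hx') (not_lt.2 h2)
  refine ⟨H, h.coarse.sub _ hG H hdiag hHsub, ?_, ?_⟩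
  · rintro ⟨x, y⟩ hxy
    rcases le_total x y with h1 | h1
    · exact ⟨y, hxy, Or.inl ⟨h1, le_rfl⟩⟩
    · exact ⟨y, hxy, Or.inr ⟨le_rfl, h1⟩⟩
  · rintro x y₁ y₂ y ⟨x₁, hx₁, h1⟩ ⟨x₂, hx₂, h2⟩ hy₁ hy₂
    change (x ≤ y₁ ∧ y₁ ≤ x₁) ∨ (x₁ ≤ y₁ ∧ y₁ ≤ x) at h1
    change (x ≤ y₂ ∧ y₂ ≤ x₂) ∨ (x₂ ≤ y₂ ∧ y₂ ≤ x) at h2
    rcases le_total x y with h3 | h3
    · rcases h2 with ⟨h4, h5⟩ | ⟨h4, h5⟩
      · exact ⟨x₂, hx₂, Or.inl ⟨h3, hy₂.trans h5⟩⟩
      · have : y = x := le_antisymm (hy₂.trans h5) h3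
        subst this
        exact hdiag y
    · rcases h1 with ⟨h4, h5⟩ | ⟨h4, h5⟩
      · have : y = x := le_antisymm h3 (h4.trans hy₁)
        subst this
        exact hdiag y
      · exact ⟨x₁, hx₁, Or.inr ⟨h4.trans hy₁, h3⟩⟩

end conv

section points

variable {X : Type u} [LinearOrder X]

/-- Cuts with a side: `(L, false)` is approximated from inside the lower set `L`, `(L, true)` is
approximated from its complement. -/
abbrev Cut (X : Type u) [LinearOrder X] : Type u := LowerSet X ×ₗ Bool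

/-- `S` contains all points sufficiently near the cut `z`. -/
def Near (z : Cut X) (S : Set X) : Prop :=
  ((ofLex z).2 = false ∧ ∃ m ∈ (ofLex z).1, ∀ y ∈ (ofLex z).1, m ≤ y → y ∈ S) ∨
  ((ofLex z).2 = true ∧ ∃ m, m ∉ (ofLex z).1 ∧ ∀ y, y ∉ (ofLex z).1 → y ≤ m → y ∈ S)

theorem Near.mono {z : Cut X} {S T : Set X} (h : Near z S) (hST : S ⊆ T) : Near z T := by
  rcases h with ⟨h, m, hm, h'⟩ | ⟨h, m, hm, h'⟩
  · exact Or.inl ⟨h, m, hm, fun y hy hmy => hST (h' y hy hmy)⟩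
  · exact Or.inr ⟨h, m, hm, fun y hy hmy => hST (h' y hy hmy)⟩

theorem Near.nonempty {z : Cut X} {S : Set X} (h : Near z S) : S.Nonempty := by
  rcases h with ⟨h, m, hm, h'⟩ | ⟨h, m, hm, h'⟩
  · exact ⟨m, h' m hm le_rfl⟩
  · exact ⟨m, h' m hm le_rfl⟩

theorem Near.inter {z : Cut X} {S T : Set X} (h₁ : Near z S) (h₂ : Near z T) :
    Near z (S ∩ T) := by
  rcases h₁ with ⟨h, m, hm, h'⟩ | ⟨h, m, hm, h'⟩
  · rcases h₂ with ⟨k, n, hn, k'⟩ | ⟨k, n, hn, k'⟩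
    · refine Or.inl ⟨h, max m n, ?_, fun y hy hmy => ⟨h' y hy ((le_max_left _ _).trans hmy),
        k' y hy ((le_max_right _ _).trans hmy)⟩⟩
      rcases max_choice m n with h1 | h1 <;> rw [h1] <;> assumption
    · rw [h] at k; cases k
  · rcases h₂ with ⟨k, n, hn, k'⟩ | ⟨k, n, hn, k'⟩
    · rw [h] at k; cases k
    · refine Or.inr ⟨h, min m n, ?_, fun y hy hmy => ⟨h' y hy (hmy.trans (min_le_left _ _)),
        k' y hy (hmy.trans (min_le_right _ _))⟩⟩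
      rcases min_choice m n with h1 | h1 <;> rw [h1] <;> assumption

/-- The cut of a point. -/
def pt (x : X) : Cut X := toLex (LowerSet.Iic x, false)

theorem near_pt {x : X} {S : Set X} : Near (pt x) S ↔ x ∈ S := by
  constructor
  · rintro (⟨-, m, hm, h⟩ | ⟨h, -⟩)
    · exact h x le_rfl hm
    · cases h
  · intro hx
    refine Or.inl ⟨rfl, x, le_rfl, fun y hy hxy => ?_⟩
    have : y = x := le_antisymm hy hxy
    rw [this]
    exact hx

/-- The set of cuts near which a nonempty convex set `C` is present is an interval. -/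
theorem exists_Icc {C : Set X} (hC : C.Nonempty)
    (hconv : ∀ y₁ ∈ C, ∀ y₂ ∈ C, ∀ y, y₁ ≤ y → y ≤ y₂ → y ∈ C) :
    ∃ a b : Cut X, Near a C ∧ Near b C ∧ ∀ z : Cut X, Near z C ↔ (a ≤ z ∧ z ≤ b) := by
  obtain ⟨c₀, hc₀⟩ := hC
  let L : LowerSet X := ⟨{y | ∃ c ∈ C, y ≤ c}, fun y y' hy'y ⟨c, hc, hyc⟩ => ⟨c, hc, hy'y.trans hyc⟩⟩
  let L' : LowerSet X := ⟨{y | ∀ c ∈ C, y < c}, fun y y' hy'y h c hc => hy'y.trans_lt (h c hc)⟩
  have hL : ∀ y, y ∈ L ↔ ∃ c ∈ C, y ≤ c := fun y => Iff.rfl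
  have hL' : ∀ y, y ∈ L' ↔ ∀ c ∈ C, y < c := fun y => Iff.rfl
  have hL'n : ∀ y, y ∉ L' ↔ ∃ c ∈ C, c ≤ y := by
    intro y
    rw [hL']
    push Not
    rfl
  refine ⟨toLex (L', true), toLex (L, false), ?_, ?_, ?_⟩
  · refine Or.inr ⟨rfl, c₀, ?_, ?_⟩
    · intro h
      exact lt_irrefl _ (h c₀ hc₀)
    · intro y hy hyc
      obtain ⟨c, hc, hcy⟩ := (hL'n y).1 hy
      exact hconv c hc c₀ hc₀ y hcy hyc
  · refine Or.inl ⟨rfl, c₀, ⟨c₀, hc₀, le_rfl⟩, ?_⟩
    intro y hy hyc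
    obtain ⟨c, hc, hcy⟩ := (hL y).1 hy
    exact hconv c₀ hc₀ c hc y hyc hcy
  · intro z
    obtain ⟨M, i⟩ := z
    change Near (toLex (M, i)) C ↔ (toLex (L', true) ≤ toLex (M, i) ∧ toLex (M, i) ≤ toLex (L, false))
    rw [Prod.Lex.toLex_le_toLex, Prod.Lex.toLex_le_toLex]
    simp only
    constructor
    · rintro (⟨h, m, hm, h'⟩ | ⟨h, m, hm, h'⟩)
      · change i = false at h
        subst h
        change m ∈ M at hm
        change ∀ y ∈ M, m ≤ y → y ∈ C at h'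
        have hmC : m ∈ C := h' m hm le_rfl
        constructor
        · left
          rw [lt_iff_le_and_ne]
          constructor
          · intro y hy
            exact M.lower ((hL' y).1 hy m hmC).le hm
          · intro heq
            rw [← heq] at hm
            exact lt_irrefl _ ((hL' m).1 hm m hmC)
        · have h1 : M ≤ L := by
            intro y hy
            rcases le_total y m with h2 | h2
            · exact ⟨m, hmC, h2⟩
            · exact ⟨y, h' y hy h2, le_rfl⟩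
          rcases h1.lt_or_eq with h2 | h2
          · exact Or.inl h2
          · exact Or.inr ⟨h2, le_rfl⟩
      · change i = true at h
        subst h
        change m ∉ M at hm
        change ∀ y, y ∉ M → y ≤ m → y ∈ C at h'
        have hmC : m ∈ C := h' m hm le_rfl
        constructor
        · have h1 : L' ≤ M := by
            intro y hy
            by_contra hyM
            have h2 := (hL' y).1 hy
            exact lt_irrefl _ (h2 y (h' y hyM (h2 m hmC).le))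
          rcases h1.lt_or_eq with h2 | h2
          · exact Or.inl h2
          · exact Or.inr ⟨h2, le_rfl⟩
        · left
          rw [lt_iff_le_and_ne]
          constructor
          · intro y hy
            refine ⟨m, hmC, ?_⟩
            by_contra hlt
            exact hm (M.lower (not_le.1 hlt).le hy)
          · intro heq
            apply hm
            rw [heq]
            exact ⟨m, hmC, le_rfl⟩
    · rintro ⟨h1, h2⟩
      cases i with
      | false =>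
        have h3 : L' < M := by
          rcases h1 with h1 | ⟨-, h1⟩
          · exact h1
          · exact absurd h1 (by decide)
        have h4 : M ≤ L := by
          rcases h2 with h2 | ⟨h2, -⟩
          · exact h2.le
          · exact h2.le
        obtain ⟨m, hmM, hmL'⟩ : ∃ m ∈ M, m ∉ L' := by
          by_contra hcon
          push Not at hcon
          exact absurd (show M ≤ L' from hcon) (not_le.2 h3)
        obtain ⟨c, hc, hcm⟩ := (hL'n m).1 hmL'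
        refine Or.inl ⟨rfl, m, hmM, fun y hy hmy => ?_⟩
        obtain ⟨c', hc', hyc'⟩ := h4 hy
        exact hconv c hc c' hc' y (hcm.trans hmy) hyc'
      | true =>
        have h3 : M < L := by
          rcases h2 with h2 | ⟨-, h2⟩
          · exact h2
          · exact absurd h2 (by decide)
        have h4 : L' ≤ M := by
          rcases h1 with h1 | ⟨h1, -⟩
          · exact h1.le
          · exact h1.le
        obtain ⟨m, hmL, hmM⟩ : ∃ m ∈ L, m ∉ M := by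
          by_contra hcon
          push Not at hcon
          exact absurd (show L ≤ M from hcon) (not_le.2 h3)
        obtain ⟨c, hc, hmc⟩ := (hL m).1 hmL
        refine Or.inr ⟨rfl, m, hmM, fun y hy hym => ?_⟩
        obtain ⟨c', hc', hcy⟩ := (hL'n y).1 (fun h => hy (h4 h))
        exact hconv c' hc' c hc y hcy (hym.trans hmc)

end points

section ext

variable {X : Type u} [LinearOrder X] (𝓔 : Set (Set (X × X)))

/-- The extended space: cuts having a bounded set nearby. -/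
abbrev Ext : Type u := {z : Cut X // ∃ F ∈ 𝓔, ∃ x, Near z (ball F x)}

/-- extended relation -/
def hat (E : Set (X × X)) : Set (Ext 𝓔 × Ext 𝓔) :=
  {p | ∃ S T : Set X, Near p.1.1 S ∧ Near p.2.1 T ∧ ∀ s ∈ S, ∀ t ∈ T, (s, t) ∈ E}

/-- The extended coarse structure. -/
def extE : Set (Set (Ext 𝓔 × Ext 𝓔)) :=
  {G | (∀ z, (z, z) ∈ G) ∧ ∃ E ∈ 𝓔, ∀ p ∈ G, p.1 = p.2 ∨ p ∈ hat 𝓔 E}

/-- points of `X` close to `z` -/
def close (E : Set (X × X)) (z : Cut X) : Set X := {y | ∃ S, Near z S ∧ ∀ s ∈ S, (s, y) ∈ E}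

variable {𝓔}

theorem hat_mono {E F : Set (X × X)} (h : E ⊆ F) : hat 𝓔 E ⊆ hat 𝓔 F := by
  rintro p ⟨S, T, hS, hT, hST⟩
  exact ⟨S, T, hS, hT, fun s hs t ht => h (hST s hs t ht)⟩

theorem isCoarse_ext (h : IsCoarse 𝓔) : IsCoarse (extE 𝓔) where
  diag G hG := hG.1
  comp := by
    rintro G ⟨hG, E, hE, hGE⟩ G' ⟨hG', E', hE', hGE'⟩
    refine ⟨fun z => ⟨z, hG z, hG' z⟩, _, h.comp E hE E' hE', ?_⟩
    rintro ⟨z, w⟩ ⟨v, h1, h2⟩
    have hE1 : E ⊆ {p : X × X | ∃ y, (p.1, y) ∈ E ∧ (y, p.2) ∈ E'} := by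
      rintro ⟨a, b⟩ hab
      exact ⟨b, hab, h.diag E' hE' b⟩
    have hE2 : E' ⊆ {p : X × X | ∃ y, (p.1, y) ∈ E ∧ (y, p.2) ∈ E'} := by
      rintro ⟨a, b⟩ hab
      exact ⟨a, h.diag E hE a, hab⟩
    rcases hGE _ h1 with h3 | h3
    · change z = v at h3
      subst h3
      rcases hGE' _ h2 with h4 | h4
      · exact Or.inl h4
      · exact Or.inr (hat_mono hE2 h4)
    · rcases hGE' _ h2 with h4 | h4
      · change v = w at h4
        subst h4
        exact Or.inr (hat_mono hE1 h3)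
      · right
        obtain ⟨S, T, hS, hT, hST⟩ := h3
        obtain ⟨S', T', hS', hT', hST'⟩ := h4
        obtain ⟨y, hy, hy'⟩ := (hT.inter hS').nonempty
        exact ⟨S, T', hS, hT', fun s hs t ht => ⟨y, hST s hs y hy, hST' y hy' t ht⟩⟩
  inv := by
    rintro G ⟨hG, E, hE, hGE⟩
    refine ⟨fun z => hG z, _, h.inv E hE, ?_⟩
    rintro ⟨z, w⟩ h1
    rcases hGE _ h1 with h2 | ⟨S, T, hS, hT, hST⟩
    · exact Or.inl h2.symm
    · exact Or.inr ⟨T, S, hT, hS, fun t ht s hs => hST s hs t ht⟩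
  sub := by
    rintro G ⟨-, E, hE, hGE⟩ G' hG' hsub
    exact ⟨hG', E, hE, fun p hp => hGE p (hsub hp)⟩

theorem connected_ext (h : IsLOCoarse X 𝓔) : Connected (extE 𝓔) := by
  rintro ⟨z, F, hF, x, hz⟩ ⟨w, F', hF', x', hw⟩
  obtain ⟨E, hE, hxx'⟩ := h.connected x x'
  have h1 := h.coarse.comp _ (h.coarse.comp _ (h.coarse.inv F hF) E hE) F' hF'
  refine ⟨{p | p.1 = p.2 ∨ p ∈ hat 𝓔 _}, ⟨fun z => Or.inl rfl, _, h1, fun p hp => hp⟩, Or.inr ?_⟩
  exact ⟨_, _, hz, hw, fun s hs t ht => ⟨x', ⟨x, hs, hxx'⟩, ht⟩⟩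

/-- the interval entourages -/
def intE (E E' : Set (X × X)) : Set (Ext 𝓔 × Ext 𝓔) :=
  {p | p.1 = p.2 ∨ ((close E p.1.1).Nonempty ∧ Near p.2.1 (close E' p.1.1))}

theorem exists_interval (h : IsLOCoarse X 𝓔) {G : Set (Ext 𝓔 × Ext 𝓔)} (hG : G ∈ extE 𝓔) :
    ∃ G' ∈ extE 𝓔, G ⊆ G' ∧ ∀ z, ∃ a b, a ≤ b ∧ ball G' z = Icc a b := by
  obtain ⟨hGd, E, hE, hGE⟩ := hG
  obtain ⟨E', hE', hEE', hconv⟩ := exists_convex h (h.coarse.comp E hE _ (h.coarse.inv E hE))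
  have hEsub : E ⊆ E' := by
    rintro ⟨a, b⟩ hab
    exact hEE' ⟨b, hab, h.coarse.diag E hE b⟩
  have hclose : ∀ z : Cut X, ∀ y₁ ∈ close E' z, ∀ y₂ ∈ close E' z, ∀ y, y₁ ≤ y → y ≤ y₂ →
      y ∈ close E' z := by
    rintro z y₁ ⟨S₁, hS₁, h1⟩ y₂ ⟨S₂, hS₂, h2⟩ y hy1 hy2
    exact ⟨S₁ ∩ S₂, hS₁.inter hS₂, fun s hs => hconv s y₁ y₂ y (h1 s hs.1) (h2 s hs.2) hy1 hy2⟩
  have hself : ∀ z : Cut X, (close E z).Nonempty → Near z (close E' z) := by
    rintro z ⟨y, S, hS, hSy⟩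
    refine hS.mono fun s hs => ⟨S, hS, fun s' hs' => hEE' ⟨y, hSy s' hs', hSy s hs⟩⟩
  have hbdd : ∀ (z : Cut X), ∀ y₁ ∈ close E' z, ∀ y₂ ∈ close E' z,
      ∃ s, (s, y₁) ∈ E' ∧ (s, y₂) ∈ E' := by
    rintro z y₁ ⟨S₁, hS₁, h1⟩ y₂ ⟨S₂, hS₂, h2⟩
    obtain ⟨s, hs1, hs2⟩ := (hS₁.inter hS₂).nonempty
    exact ⟨s, h1 s hs1, h2 s hs2⟩
  have hF := h.coarse.comp _ (h.coarse.inv E' hE') E' hE'
  have hE'' := h.coarse.comp E' hE' _ hF
  refine ⟨intE E E', ⟨fun z => Or.inl rfl, _, hE'', ?_⟩, ?_, ?_⟩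
  · rintro ⟨z, w⟩ (h1 | ⟨h1, h2⟩)
    · exact Or.inl h1
    · right
      obtain ⟨y, hy⟩ := h2.nonempty
      have hy' := hy
      obtain ⟨S, hS, hSy⟩ := hy'
      refine ⟨S, close E' z.1, hS, h2, fun s hs t ht => ?_⟩
      obtain ⟨s', h3, h4⟩ := hbdd z.1 y hy t ht
      exact ⟨y, hSy s hs, s', h3, h4⟩
  · rintro ⟨z, w⟩ hzw
    rcases hGE _ hzw with h1 | ⟨S, T, hS, hT, hST⟩
    · exact Or.inl h1
    · right
      have h2 : T ⊆ close E z.1 := fun t ht => ⟨S, hS, fun s hs => hST s hs t ht⟩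
      refine ⟨hT.nonempty.mono h2, hT.mono ?_⟩
      intro t ht
      obtain ⟨S', hS', h3⟩ := h2 ht
      exact ⟨S', hS', fun s hs => hEsub (h3 s hs)⟩
  · intro z
    by_cases hz : (close E z.1).Nonempty
    · have hne : (close E' z.1).Nonempty := (hself z.1 hz).nonempty
      obtain ⟨a, b, ha, hb, hab⟩ := exists_Icc hne (hclose z.1)
      have hin : ∀ c : Cut X, Near c (close E' z.1) → ∃ F ∈ 𝓔, ∃ x, Near c (ball F x) := by
        intro c hc
        obtain ⟨y, hy⟩ := hne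
        refine ⟨_, hF, y, hc.mono ?_⟩
        intro t ht
        obtain ⟨s', h3, h4⟩ := hbdd z.1 y hy t ht
        exact ⟨s', h3, h4⟩
      refine ⟨⟨a, hin a ha⟩, ⟨b, hin b hb⟩, ?_, ?_⟩
      · exact ((hab a).1 ha).2
      · ext w
        constructor
        · rintro (h1 | ⟨-, h1⟩)
          · change z = w at h1
            subst h1
            exact (hab z.1).1 (hself z.1 hz)
          · exact (hab w.1).1 h1
        · intro hw
          exact Or.inr ⟨hz, (hab w.1).2 hw⟩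
    · refine ⟨z, z, le_rfl, ?_⟩
      ext w
      constructor
      · rintro (h1 | ⟨h1, -⟩)
        · change z = w at h1
          subst h1
          exact ⟨le_rfl, le_rfl⟩
        · exact absurd h1 hz
      · rintro ⟨h1, h2⟩
        exact Or.inl (le_antisymm h1 h2)

theorem isLO_ext (h : IsLOCoarse X 𝓔) : IsLOCoarse (Ext 𝓔) (extE 𝓔) where
  coarse := isCoarse_ext h.coarse
  connected := connected_ext h
  compatible := by
    intro G hG
    obtain ⟨G', hG', hsub, hint⟩ := exists_interval h hG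
    refine ⟨G', hG', fun x y hxy hy x' hx' => ?_⟩
    by_contra hlt
    rw [not_lt] at hlt
    obtain ⟨a, b, hab, hball⟩ := hint x
    have h1 : x ∈ ball G' x := hG'.1 x
    have h2 : x' ∈ ball G' x := hsub hx'
    rw [hball] at h1 h2 hy
    exact hy ⟨h1.1.trans hxy.le, hlt.trans h2.2⟩

/-- embedding of the points -/
def emb (h : IsLOCoarse X 𝓔) (x : X) : Ext 𝓔 :=
  ⟨pt x, by
    obtain ⟨E, hE, hx⟩ := h.connected x x
    exact ⟨E, hE, x, near_pt.2 hx⟩⟩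

theorem emb_injective (h : IsLOCoarse X 𝓔) : Function.Injective (emb h) := by
  intro x y hxy
  have h1 : pt x = pt y := congrArg Subtype.val hxy
  have h2 : Near (pt y) {x} := h1 ▸ (near_pt.2 rfl)
  exact (near_pt.1 h2).symm

theorem emb_hat (h : IsLOCoarse X 𝓔) {E : Set (X × X)} {x y : X} :
    (emb h x, emb h y) ∈ hat 𝓔 E ↔ (x, y) ∈ E := by
  constructor
  · rintro ⟨S, T, hS, hT, hST⟩
    exact hST x (near_pt.1 hS) y (near_pt.1 hT)
  · intro hxy
    refine ⟨{x}, {y}, near_pt.2 rfl, near_pt.2 rfl, ?_⟩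
    rintro s rfl t rfl
    exact hxy

end ext

/-- Every linearly ordered coarse space `(X, 𝓔, ≤)` is asymorphic to a subspace of a linearly
ordered coarse space `(Z, 𝓔_Z, ≤)` whose coarse structure has an interval base. -/
theorem result (X : Type u) [LinearOrder X] (𝓔 : Set (Set (X × X))) (h : IsLOCoarse X 𝓔) :
    ∃ (Z : Type u) (_ : LinearOrder Z) (𝓔Z : Set (Set (Z × Z))), IsLOCoarse Z 𝓔Z ∧
      HasIntervalBase 𝓔Z ∧ ∃ Y : Set Z, Asymorphic 𝓔 (subspace 𝓔Z Y) := by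
  refine ⟨Ext 𝓔, inferInstance, extE 𝓔, isLO_ext h, ?_, range (emb h), ?_⟩
  · refine ⟨{G | G ∈ extE 𝓔 ∧ ∀ z, ∃ a b, a ≤ b ∧ ball G z = Icc a b}, fun G hG => hG.1, ?_,
      fun G hG => hG.2⟩
    intro G hG
    obtain ⟨G', hG', hsub, hint⟩ := exists_interval h hG
    exact ⟨G', ⟨hG', hint⟩, hsub⟩
  · refine ⟨Equiv.ofInjective _ (emb_injective h), ?_, ?_⟩
    · intro E hE
      refine ⟨_, ⟨{p | p.1 = p.2 ∨ p ∈ hat 𝓔 E}, ⟨fun z => Or.inl rfl, E, hE, fun p hp => hp⟩,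
        rfl⟩, ?_⟩
      rintro x _ ⟨y, hy, rfl⟩
      exact Or.inr ((emb_hat h).2 hy)
    · rintro _ ⟨G, ⟨-, E, hE, hGE⟩, rfl⟩
      refine ⟨E, hE, ?_⟩
      rintro ⟨_, x, rfl⟩ _ ⟨⟨_, y, rfl⟩, hy, rfl⟩
      have hx' : (Equiv.ofInjective _ (emb_injective h)).symm ⟨emb h x, x, rfl⟩ = x :=
        (Equiv.symm_apply_eq _).2 rfl
      have hy' : (Equiv.ofInjective _ (emb_injective h)).symm ⟨emb h y, y, rfl⟩ = y :=
        (Equiv.symm_apply_eq _).2 rfl
      rw [hx', hy']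
      rcases hGE _ hy with h1 | h1
      · have h2 : x = y := emb_injective h h1
        subst h2
        exact h.coarse.diag E hE x
      · exact (emb_hat h).1 h1

end Pool.Agent.Results.MP_54b381_gt.IntervalExtension
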